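import Pool.Agent.Y703.CT.StmG
import Pool.Agent.Y363.CT.SELC

/-!
# CT-KLOC: kernel vectors give locally solvable characters
-/

set_option autoImplicit false
set_option linter.unusedSectionVars false

open scoped Classical

namespace Pool.Agent.Y210.CT.KLOC

open Pool.Agent.Y692.QS (Ei w nr)
open Pool.Agent.Y715.T.Gi Pool.Agent.Y715.T.Nr Pool.Agent.Y715.T.Df
open Pool.Agent.Y715.T.Rec (cs)
open Pool.Agent.Y715.T.RecG
open Pool.Agent.Y715.T.Sel (iota_ev)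
open Pool.Agent.Y48.CT.SEL (pr0 prod_form)
open Pool.Agent.Y363.CT.SELC (not_lt_prod)
open Pool.Agent.Y703.CT

/-- **CT-KLOC.** -/
theorem t_KLOC : S_KLOC := by
  intro hFF hCUB hCUB3 hPT hRAMC J _ π e hD h9 i₀ hi u a hTw v hv h hKc p _ ι
  have hB0 : (∏ j, π j ^ (e j * v j).val) ≠ 0 := pr0 hD _
  have hD0 : pD π e ≠ 0 := pr0 hD _
  by_cases hp3 : p = 3
  · subst hp3
    exact hPT i₀ hi _ _ hB0 hD0 u a hTw _ hKc 3 ι
      (hCUB3 inferInstance (ι i₀) (iota_sq' hi ι) _ _ (prod_form hD _) (prod_form hD _) h9)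
  · by_cases hj : ∃ j, ‖ι (ev i₀ hi (π j))‖ < 1
    · obtain ⟨j, hj⟩ := hj
      exact hRAMC J π e hD i₀ hi u a hTw v _ hKc j (hv j) p ι hj
    · have hj' : ∀ j, ¬ ‖ev (ι i₀) (iota_sq' hi ι) (π j)‖ < 1 := by
        intro j h1
        apply hj
        refine ⟨j, ?_⟩
        rw [iota_ev]
        exact h1
      exact hPT i₀ hi _ _ hB0 hD0 u a hTw _ hKc p ι
        (hCUB hFF p hp3 (ι i₀) (iota_sq' hi ι) _ _ (not_lt_prod _ hj' _)
          (not_lt_prod _ hj' _))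

end Pool.Agent.Y210.CT.KLOC
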